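import Mathlib
import Pool.Agent.V8H10.LK.Index

set_option autoImplicit false

/-!
# For almost all `n` few small `k`, and no very small `k`, make `p_{k n} ^ 2 - 2` a prime
-/

namespace Pool.Agent.Results.MP_c971ef_nt.LeastMultiplier

/-- the `m`-th prime, `pr 1 = 2` -/
noncomputable def pr (m : ℕ) : ℕ := Nat.nth Nat.Prime (m - 1)

open Classical in
/-- the number of `k` with `1 ≤ k ≤ K` for which `p_{k n} ^ 2 - 2` is a prime -/
noncomputable def good (K n : ℕ) : ℕ :=
  ((Finset.Icc 1 K).filter (fun k : ℕ => (pr (k * n) ^ 2 - 2).Prime)).card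

open Classical in
/-- the number of `n` with `1 ≤ n ≤ N` such that for some `K ≤ exp ((log n) ^ η)` there are more than
`K / (log n) ^ (1 - ε)` integers `k ≤ K` for which `p_{k n} ^ 2 - 2` is a prime -/
noncomputable def exceptions (ε η : ℝ) (N : ℕ) : ℕ :=
  ((Finset.Icc 1 N).filter (fun n : ℕ => ∃ K : ℕ, (K : ℝ) ≤ Real.exp (Real.log n ^ η) ∧
    K * Real.log n ^ (ε - 1) < good K n)).card

/-- **Few good multipliers for almost all `n`.** Let `0 < ε < 1`. There are `η > 0` and `C` such that for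
all `N ≥ 3`, for all but at most `C N (log N) ^ (- ε / 2)` of the integers `n ≤ N`: for EVERY
`K ≤ exp ((log n) ^ η)` at most `K / (log n) ^ (1 - ε)` of the integers `k ≤ K` are such that
`p_{k n} ^ 2 - 2` is a prime. In particular (`K < (log n) ^ (1 - ε)`) there is none with
`k < (log n) ^ (1 - ε)`, when `n` is large. -/
theorem result (ε : ℝ) (hε : 0 < ε) (hε1 : ε < 1) : ∃ η C : ℝ, 0 < η ∧ ∀ N : ℕ, 3 ≤ N →
    (exceptions ε η N : ℝ) ≤ C * N * Real.log N ^ (-ε / 2) := by
  classical
  obtain ⟨η, C, hη, h⟩ := Pool.Agent.V8H10.LK.exceptions_le ε hε hε1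
  refine ⟨η, C, hη, fun N hN => ?_⟩
  have hgood : ∀ K n : ℕ, good K n = Pool.Agent.V8H10.LK.RR K n := by
    intro K n
    unfold good Pool.Agent.V8H10.LK.RR
    congr 1
    ext k
    rw [Finset.mem_filter, Finset.mem_filter]
    exact Iff.rfl
  have e : exceptions ε η N = ((Finset.Icc 1 N).filter (fun n : ℕ => ∃ K : ℕ,
      (K : ℝ) ≤ Real.exp (Real.log n ^ η) ∧
      K * Real.log n ^ (ε - 1) < Pool.Agent.V8H10.LK.RR K n)).card := by
    unfold exceptions
    congr 1
    ext n
    rw [Finset.mem_filter, Finset.mem_filter]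
    simp only [hgood]
  rw [e]
  exact h N hN

end Pool.Agent.Results.MP_c971ef_nt.LeastMultiplier
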