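import Pool.Agent.V8H2.MG.Quad

set_option autoImplicit false

/-!
# A positive proportion of the primes `p` with `p ^ 2 - 2` almost prime is followed by such primes in the same
residue class
-/

namespace Pool.Agent.Results.MP_c971ef_nt.PositiveProportion

open Filter Finset

open Classical in
/-- The primes `p` of `(N, 2 N]` such that all prime factors of `p ^ 2 - 2` are at least `N ^ δ`. -/
noncomputable def S (δ : ℝ) (N : ℕ) : Finset ℕ :=
  (Ioc N (2 * N)).filter (fun p => p.Prime ∧ ∀ l : ℕ, l.Prime → l ∣ p ^ 2 - 2 → (N : ℝ) ^ δ ≤ l)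

open Classical in
/-- The elements `p` of `A` such that `p` and the `m` elements of `A` following `p` (which exist) are all congruent
to `a` modulo `q` and lie in an interval of length at most `D`. -/
noncomputable def Run (A : Finset ℕ) (m q a : ℕ) (D : ℝ) : Finset ℕ :=
  A.filter (fun p => ∃ x : ℕ → ℕ, x 0 = p ∧
    (∀ j ≤ m, x j ∈ A ∧ x j ≡ a [MOD q] ∧ (x j : ℝ) ≤ p + D) ∧
    ∀ j < m, x j < x (j + 1) ∧ ∀ y ∈ A, ¬ (x j < y ∧ y < x (j + 1)))

/-- **A positive proportion of runs.** Let `m ≥ 0`, `q ≥ 1` and let `a (a ^ 2 - 2)` be coprime to `q`. There is `δ`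
with `0 < δ ≤ 1 / 24` such that, for the set `S` of the primes `p` in `(N, 2 N]` all prime factors of whose
`p ^ 2 - 2` are at least `N ^ δ`: for every `η > 0` there is `c > 0` such that for all large `N` one has
`|S| ≥ c N / (log N) ^ 3`, and for at least the proportion `c` of the `p ∈ S` the prime `p` and the `m` next
elements of `S` are all `≡ a` modulo `q` and lie in an interval of length at most `η N / |S|`, i.e. at most `η`
times the average distance of the elements of `S`. -/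
theorem result (m q a : ℕ) (hq : 1 ≤ q) (ha : IsCoprime ((a : ℤ) * ((a : ℤ) ^ 2 - 2)) (q : ℤ)) :
    ∃ δ : ℝ, 0 < δ ∧ δ ≤ 1 / 24 ∧ ∀ η : ℝ, 0 < η → ∃ c : ℝ, 0 < c ∧ ∀ᶠ N : ℕ in atTop,
      c * (N / Real.log N ^ 3) ≤ ((S δ N).card : ℝ) ∧
      c * ((S δ N).card : ℝ) ≤ ((Run (S δ N) m q a (η * (N / (S δ N).card))).card : ℝ) := by
  classical
  obtain ⟨g, hg, hD⟩ := Pool.Agent.V8H2.MG.datQ
  obtain ⟨W, δ, c₁, c₂, hW0, hδ, hδ24, hc₁, hc₂, hdens, hup, hrun⟩ :=
    Pool.Agent.V8H2.MG.runs g (by omega) Pool.Agent.V8H2.MG.GQ Pool.Agent.V8H2.MG.DQ hD 1 3 0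
      le_rfl (by omega) hg (fun p hp _ => Pool.Agent.V8H2.MG.rtQ_ge p hp)
      (fun p hp _ => Pool.Agent.V8H2.MG.rtQ_le p hp) m q a (by omega)
      (fun p hp hpq h => by
        have h1 : IsCoprime (p : ℤ) (p : ℤ) :=
          (ha.of_isCoprime_of_dvd_left h).of_isCoprime_of_dvd_right (by exact_mod_cast hpq)
        exact (Nat.prime_iff_prime_int.1 hp).not_isUnit (isCoprime_self.1 h1))
  have hS : ∀ N : ℕ, 1 ≤ N → S δ N = Pool.Agent.V8H2.MG.SP Pool.Agent.V8H2.MG.GQ δ N := by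
    intro N hN
    ext p
    rw [Pool.Agent.V8H2.MG.mem_SP]
    unfold S
    rw [mem_filter, mem_Ioc]
    have key : 2 ≤ p → ∀ l : ℕ, l ∣ p ^ 2 - 2 ↔ (l : ℤ) ∣ Pool.Agent.V8H2.MG.GQ (p : ℤ) := by
      intro hp l
      have h1 : 2 ≤ p ^ 2 := by nlinarith
      have h2 : (((p ^ 2 - 2 : ℕ)) : ℤ) = Pool.Agent.V8H2.MG.GQ (p : ℤ) := by
        unfold Pool.Agent.V8H2.MG.GQ
        push_cast [h1]
        ring
      rw [← h2]
      exact Int.natCast_dvd_natCast.symm
    constructor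
    · rintro ⟨⟨h1, h2⟩, h3, h4⟩
      exact ⟨h1, h2, h3, fun l hl hd => h4 l hl ((key h3.two_le l).2 hd)⟩
    · rintro ⟨h1, h2, h3, h4⟩
      exact ⟨⟨h1, h2⟩, h3, fun l hl hd => h4 l hl ((key h3.two_le l).1 hd)⟩
  refine ⟨δ, hδ, hδ24, fun η hη => ?_⟩
  obtain ⟨c, hc, hev⟩ := hrun (η / 3) (by positivity)
  refine ⟨min (c / 3) (c * c₁), lt_min (by positivity) (by positivity), ?_⟩
  have hlogT : Tendsto (fun N : ℕ => Real.log N) atTop atTop :=
    Real.tendsto_log_atTop.comp (tendsto_natCast_atTop_atTop (R := ℝ))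
  filter_upwards [hdens, hup, hev, hlogT.eventually_ge_atTop 1, eventually_ge_atTop 1] with N h1 h2 h3 h4 h5
  obtain ⟨v, hv⟩ : ∃ v : ℝ, v = Pool.Agent.V8H2.MG.vv (fun n => n * Pool.Agent.V8H2.MG.GQ n) W
    (Pool.Agent.V8H2.MG.zf δ N) := ⟨_, rfl⟩
  rw [← hv] at h1 h2 h3
  have hv0 : 0 < v := by rw [hv]; exact Pool.Agent.V8H2.MG.vv_pos hD W _
  have hl0 : 0 < Real.log (N : ℝ) := by linarith
  have hN0 : (0 : ℝ) < N := by exact_mod_cast h5
  rw [← hS N h5] at h2 h3
  have hsub : ∀ Δ : ℝ, ((Pool.Agent.V8H2.MG.Run (S δ N) m q a Δ).card : ℝ) ≤ ((S δ N).card : ℝ) := by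
    intro Δ
    exact_mod_cast card_le_card (filter_subset _ _)
  have hlow : c * (N * v) ≤ ((S δ N).card : ℝ) := (h3 _ le_rfl).trans (hsub _)
  have hSpos : (0 : ℝ) < (S δ N).card := lt_of_lt_of_le (by positivity) hlow
  constructor
  · calc min (c / 3) (c * c₁) * (N / Real.log N ^ 3) ≤ c * c₁ * (N / Real.log N ^ 3) := by
          apply mul_le_mul_of_nonneg_right (min_le_right _ _) (by positivity)
      _ = c * (N * (c₁ / Real.log N ^ 3)) := by ring
      _ ≤ c * (N * v) := by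
          have := h1.1
          gcongr
      _ ≤ _ := hlow
  · have hRun : Run (S δ N) m q a (η * (N / (S δ N).card)) =
        Pool.Agent.V8H2.MG.Run (S δ N) m q a (η * (N / (S δ N).card)) := rfl
    rw [hRun]
    have h6 := h3 (η * (N / (S δ N).card)) (by
      rw [div_le_iff₀ hv0]
      have h7 : (1 : ℝ) / 3 ≤ N / (S δ N).card * v := by
        rw [div_mul_eq_mul_div, le_div_iff₀ hSpos]
        linarith
      calc η / 3 = η * (1 / 3) := by ring
        _ ≤ η * (N / (S δ N).card * v) := by gcongr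
        _ = _ := by ring)
    calc min (c / 3) (c * c₁) * ((S δ N).card : ℝ) ≤ c / 3 * (3 * (N * v)) := by
          apply mul_le_mul (min_le_left _ _) h2 (Nat.cast_nonneg _) (by positivity)
      _ = c * (N * v) := by ring
      _ ≤ _ := h6

end Pool.Agent.Results.MP_c971ef_nt.PositiveProportion
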