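import Pool.Agent.V8H34.PR.Index
import Pool.Agent.R498.MP.LinC

set_option autoImplicit false

/-!
# Arithmetic progressions of strings of primes `p_{k n}` with almost prime `p_{k n} ^ 2 - 2`
-/

namespace Pool.Agent.Results.MP_c971ef_nt.ProgressionsOfMultiples

open Filter

/-- the `m`-th prime, `pr 1 = 2` -/
noncomputable def pr (m : ℕ) : ℕ := Nat.nth Nat.Prime (m - 1)

/-- `p ^ 2 - 2` has at most `r` prime factors, counted with multiplicity, all of them at least `w`. -/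
def AlmostPrimeValue (r : ℕ) (w : ℝ) (p : ℕ) : Prop :=
  (p ^ 2 - 2).primeFactorsList.length ≤ r ∧ ∀ q : ℕ, q.Prime → q ∣ p ^ 2 - 2 → w ≤ q

theorem cast_val (p : ℕ) (hp : 2 ≤ p) : (p : ℤ) ^ 2 - 2 = ((p ^ 2 - 2 : ℕ) : ℤ) := by
  have h : 2 ≤ p ^ 2 := by nlinarith
  push_cast [Nat.cast_sub h]
  ring

theorem nonzero (n : ℤ) : n ^ 2 - 2 ≠ 0 := by
  intro h
  have h1 : n.natAbs * n.natAbs = 2 := by
    zify
    rw [← sq, sq_abs]
    linarith
  have h2 : n.natAbs ≤ 1 := by nlinarith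
  interval_cases n.natAbs <;> omega

theorem eval_f (n : ℤ) : (Polynomial.X ^ 2 - 2 : Polynomial ℤ).eval n = n ^ 2 - 2 := by
  simp

theorem adm (p : ℕ) (hp : p.Prime) :
    ∃ n : ℤ, ¬ (p : ℤ) ∣ n * (Polynomial.X ^ 2 - 2 : Polynomial ℤ).eval n := by
  refine ⟨1, fun h => ?_⟩
  rw [eval_f] at h
  have h3 : (p : ℤ) ∣ 1 := by
    have h4 := h.mul_left (-1)
    norm_num at h4
    exact_mod_cast h4
  exact hp.one_lt.ne' (Nat.dvd_one.1 (by exact_mod_cast h3))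

/-- **Progressions of strings of the primes `p_{k n}`.** Let `n, v ≥ 1`, `m ≥ 0`, `q ≥ 1`, `c (c ^ 2 - 2)`
coprime to `q` (for instance `q = 1`). There are `C`, `r` and `δ > 0` such that for all `b ≥ 1` and `l` there
is `B` such that for all large `N` there is a shape `0 = h 0 < ... < h m ≤ C` for which at least
`N / (log N) ^ B` numbers `s` start an arithmetic progression `s, s + D, ..., s + (l - 1) D` with difference
`1 ≤ D ≤ (log N) ^ B` such that for every term `x` there is `t` such that `x + h 0, ..., x + h m` are the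
primes `p_{k n}` for the `m + 1` consecutive terms `k = v t + b, ..., v (t + m) + b` of the class of `b`
modulo `v`, in `(N, 2 N]`, all `≡ c` modulo `q`, and the numbers `p_{k n} ^ 2 - 2` have at most `r` prime
factors, all of them at least `N ^ δ`. -/
theorem result (n v m q c : ℕ) (hn : 1 ≤ n) (hv : 1 ≤ v) (hq : 1 ≤ q)
    (hc : IsCoprime ((c : ℤ) * ((c : ℤ) ^ 2 - 2)) (q : ℤ)) :
    ∃ (C r : ℕ) (δ : ℝ), 0 < δ ∧ ∀ b l : ℕ, 1 ≤ b → ∃ B : ℕ, ∀ᶠ N : ℕ in atTop,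
      ∃ (h : ℕ → ℕ) (T : Finset ℕ), h 0 = 0 ∧ (∀ j < m, h j < h (j + 1)) ∧ h m ≤ C ∧
        (N : ℝ) / Real.log N ^ B ≤ T.card ∧
        ∀ s ∈ T, ∃ D : ℕ, 1 ≤ D ∧ (D : ℝ) ≤ Real.log N ^ B ∧ ∀ i < l, ∃ t : ℕ, ∀ j ≤ m,
          pr ((v * (t + j) + b) * n) = s + i * D + h j ∧ N < s + i * D + h j ∧
          s + i * D + h j ≤ 2 * N ∧ s + i * D + h j ≡ c [MOD q] ∧
          AlmostPrimeValue r ((N : ℝ) ^ δ) (s + i * D + h j) := by
  obtain ⟨C, r, δ, hδ, hmain⟩ := Pool.Agent.V8H34.PR.index_prog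
    (Polynomial.X ^ 2 - 2) (fun n _ => by rw [eval_f]; exact nonzero n) adm q c hq
    (fun p hp hpq => by
      rw [eval_f]
      exact Pool.Agent.R498.MP.cop_to _ q hc p hp hpq) (v * n) m (Nat.mul_pos hv hn)
  refine ⟨C, r, δ, hδ, fun b l hb => ?_⟩
  have hidx : ∀ t : ℕ, pr ((v * t + b) * n) = Nat.nth Nat.Prime (v * n * t + (b * n - 1)) := by
    intro t
    unfold pr
    congr 1
    have h1 : (v * t + b) * n = v * n * t + b * n := by ring
    have h2 : 1 ≤ b * n := Nat.mul_pos hb hn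
    omega
  obtain ⟨B, hB⟩ := hmain (b * n - 1) l
  refine ⟨B, ?_⟩
  filter_upwards [hB, eventually_ge_atTop 2] with N hN hN2
  obtain ⟨h, T, h0, h1, h2, h3, hT⟩ := hN
  refine ⟨h, T, h0, h1, h2, h3, fun s hs => ?_⟩
  obtain ⟨D, hD1, hD2, hD3⟩ := hT s hs
  refine ⟨D, hD1, hD2, fun i hi => ?_⟩
  obtain ⟨t, ht⟩ := hD3 i hi
  refine ⟨t, fun j hj => ?_⟩
  obtain ⟨g1, g2, g3, g4, g5⟩ := ht j hj
  refine ⟨by rw [hidx]; exact g1, g2, g3, g4, ?_⟩
  obtain ⟨-, g6, g7⟩ := g5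
  rw [eval_f, cast_val _ (by omega)] at g6 g7
  rw [Int.natAbs_natCast] at g6
  exact ⟨g6, fun q hq hqd => g7 q hq (by exact_mod_cast hqd)⟩

end Pool.Agent.Results.MP_c971ef_nt.ProgressionsOfMultiples
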